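import Mathlib
import Pool.Agent.H892.KT.Stm

/-! Lipschitz estimate for the lift to the blow-up. -/

set_option autoImplicit false

namespace Pool.Agent.H353.KT

open Pool.Agent.H892.KT

theorem lem_frac (a u u' w w' : ℂ) (D : ℝ) (ha : ‖a‖ ≤ 1 / 2) (hu' : ‖u'‖ ≤ 1 / 4)
    (hw : ‖w‖ ≤ 1 / 4) (hw' : ‖w'‖ ≤ 1 / 4) (h1 : ‖u - u'‖ ≤ D) (h2 : ‖w - w'‖ ≤ D) :
    ‖(a + u) / (1 + w) - (a + u') / (1 + w')‖ ≤ 5 * D := by
  have hD : 0 ≤ D := (norm_nonneg _).trans h1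
  have e1 : 3 / 4 ≤ ‖1 + w‖ := by
    have := norm_sub_le_norm_add (1 : ℂ) w
    rw [norm_one] at this
    linarith
  have e2 : 3 / 4 ≤ ‖1 + w'‖ := by
    have := norm_sub_le_norm_add (1 : ℂ) w'
    rw [norm_one] at this
    linarith
  have n1 : (1 + w) ≠ 0 := fun h => by
    rw [h, norm_zero] at e1
    linarith
  have n2 : (1 + w') ≠ 0 := fun h => by
    rw [h, norm_zero] at e2
    linarith
  have key : (a + u) / (1 + w) - (a + u') / (1 + w') =
      ((u - u') * (1 + w') - (a + u') * (w - w')) / ((1 + w) * (1 + w')) := by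
    rw [div_sub_div _ _ n1 n2]
    congr 1
    ring
  rw [key, norm_div, norm_mul, div_le_iff₀ (mul_pos (by linarith) (by linarith))]
  have e3 : ‖1 + w'‖ ≤ 5 / 4 := by
    have := norm_add_le (1 : ℂ) w'
    rw [norm_one] at this
    linarith
  have e4 : ‖a + u'‖ ≤ 3 / 4 := by
    have := norm_add_le a u'
    linarith
  have e5 : ‖(u - u') * (1 + w') - (a + u') * (w - w')‖ ≤ D * (5 / 4) + 3 / 4 * D := by
    refine (norm_sub_le _ _).trans ?_
    rw [norm_mul, norm_mul]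
    exact add_le_add (mul_le_mul h1 e3 (norm_nonneg _) hD)
      (mul_le_mul e4 h2 (norm_nonneg _) (by norm_num))
  have e6 : 9 / 16 ≤ ‖1 + w‖ * ‖1 + w'‖ := by nlinarith
  nlinarith

theorem t_HATLIP : S_HATLIP := by
  rintro ⟨a, b⟩ ⟨v1, v2⟩ ⟨v1', v2'⟩ hp hv hv'
  rw [Prod.norm_mk, max_le_iff] at hp hv hv'
  obtain ⟨ha, hb⟩ := hp
  obtain ⟨h1, h2⟩ := hv
  obtain ⟨h1', h2'⟩ := hv'
  simp only at ha hb h1 h2 h1' h2' ⊢
  unfold hat
  simp only
  by_cases hb0 : b = 0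
  · subst hb0
    simp only [norm_zero, ne_eq, OfNat.ofNat_ne_zero, not_false_eq_true, zero_pow,
      norm_le_zero_iff] at h1 h2 h1' h2'
    subst h1 h2 h1' h2'
    simp
  · have hbp : 0 < ‖b‖ := norm_pos_iff.2 hb0
    have hb2 : ‖b‖ ^ 2 ≤ 1 / 4 := by nlinarith
    have hd : ∀ v : ℂ, ‖v‖ ≤ ‖b‖ ^ 3 → ‖v / b‖ ≤ ‖b‖ ^ 2 := by
      intro v hv
      rw [norm_div, div_le_iff₀ hbp]
      calc ‖v‖ ≤ ‖b‖ ^ 3 := hv
        _ = ‖b‖ ^ 2 * ‖b‖ := by ring
    have hq : ∀ v : ℂ, ‖v‖ ≤ ‖b‖ ^ 3 → ‖v / b‖ ≤ 1 / 4 := fun v hv => (hd v hv).trans hb2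
    have hm : ∀ v : ℂ, b * (1 + v / b) = b + v := by
      intro v
      field_simp
    constructor
    · have hN1 : ‖v1 - v1'‖ ≤ ‖((v1, v2) : ℂ × ℂ) - (v1', v2')‖ :=
        norm_fst_le (((v1, v2) : ℂ × ℂ) - (v1', v2'))
      have hN2 : ‖v2 - v2'‖ ≤ ‖((v1, v2) : ℂ × ℂ) - (v1', v2')‖ :=
        norm_snd_le (((v1, v2) : ℂ × ℂ) - (v1', v2'))
      generalize ‖((v1, v2) : ℂ × ℂ) - (v1', v2')‖ = N at hN1 hN2 ⊢
      have hN : 0 ≤ N := (norm_nonneg _).trans hN1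
      rw [hm, hm, Prod.mk_sub_mk, Prod.norm_mk, ← le_div_iff₀ hbp, max_le_iff]
      constructor
      · rw [mul_div_assoc]
        refine lem_frac a _ _ _ _ (N / ‖b‖) ha (hq _ h1') (hq _ h2) (hq _ h2') ?_ ?_
        · rw [← sub_div, norm_div]
          exact div_le_div_of_nonneg_right hN1 hbp.le
        · rw [← sub_div, norm_div]
          exact div_le_div_of_nonneg_right hN2 hbp.le
      · rw [le_div_iff₀ hbp, add_sub_add_left_eq_sub]
        nlinarith [norm_nonneg (v2 - v2')]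
    · rw [hm, Prod.mk_sub_mk, Prod.norm_mk, max_le_iff]
      constructor
      · have hw := hq _ h2
        have e1 : 3 / 4 ≤ ‖1 + v2 / b‖ := by
          have := norm_sub_le_norm_add (1 : ℂ) (v2 / b)
          rw [norm_one] at this
          linarith
        have n1 : (1 + v2 / b) ≠ 0 := fun h => by
          rw [h, norm_zero] at e1
          linarith
        have key : (a + v1 / b) / (1 + v2 / b) - a = (v1 / b - a * (v2 / b)) / (1 + v2 / b) := by
          rw [eq_div_iff n1, sub_mul, div_mul_cancel₀ _ n1]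
          ring
        rw [key, norm_div, div_le_iff₀ (by linarith)]
        have e5 : ‖v1 / b - a * (v2 / b)‖ ≤ ‖b‖ ^ 2 + 1 / 2 * ‖b‖ ^ 2 := by
          refine (norm_sub_le _ _).trans ?_
          rw [norm_mul]
          exact add_le_add (hd _ h1) (mul_le_mul ha (hd _ h2) (norm_nonneg _) (by norm_num))
        have : 0 ≤ ‖b‖ ^ 2 := by positivity
        nlinarith
      · rw [add_sub_cancel_left]
        refine h2.trans ?_
        have : 0 ≤ ‖b‖ ^ 2 := by positivity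
        nlinarith

end Pool.Agent.H353.KT
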